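import Mathlib
import Pool.Agent.Lib.MP_9317e9_co.Defs

set_option autoImplicit false

universe u

namespace Pool.Agent.Lib.MP_9317e9_co.Cl

open Pool.Agent.Lib.MP_9317e9_co

/-- `x` and `y` are joined by an arc, in some direction. -/
def Nb {V : Type u} (G : Digraph V) (x y : V) : Prop := G.Adj x y ∨ G.Adj y x

/-- Every subset of `X` has a kernel. -/
def KernelPerfect {V : Type u} (G : Digraph V) (X : Set V) : Prop :=
  ∀ U ⊆ X, ∃ A ⊆ U, Indep G A ∧ ∀ v ∈ U, v ∈ A ∨ ∃ a ∈ A, G.Adj a v

/-- Every subset of `X` has a kernel in the reversed digraph. -/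
def SinkPerfect {V : Type u} (G : Digraph V) (X : Set V) : Prop :=
  ∀ U ⊆ X, ∃ B ⊆ U, Indep G B ∧ ∀ v ∈ U, v ∈ B ∨ ∃ b ∈ B, G.Adj v b

/-- `v` is in `S`, or it has an in-neighbour in `S`, or it is in `T`, or it has an out-neighbour
in `T`. -/
def Covered {V : Type u} (G : Digraph V) (S T : Set V) (v : V) : Prop :=
  (v ∈ S ∨ ∃ s ∈ S, G.Adj s v) ∨ (v ∈ T ∨ ∃ t ∈ T, G.Adj v t)

/-- `(S, T, Y)` is an admissible triple of subsets of `Z`: the sets are not all empty, `S` and `T`
are disjoint, `S` is kernel-perfect, `T` is sink-perfect, and every vertex of `Z` outside `Y` with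
an arc to `S` or an arc from `T` or an arc to or from `Y` is covered by `S` and `T`. -/
structure Admissible {V : Type u} (G : Digraph V) (Z S T Y : Set V) : Prop where
  SZ : S ⊆ Z
  TZ : T ⊆ Z
  YZ : Y ⊆ Z
  nonempty : S.Nonempty ∨ T.Nonempty ∨ Y.Nonempty
  disj : Disjoint S T
  kernel : KernelPerfect G S
  sink : SinkPerfect G T
  cover : ∀ z ∈ Z, z ∉ Y →
    ((∃ s ∈ S, G.Adj z s) ∨ (∃ t ∈ T, G.Adj t z) ∨ ∃ y ∈ Y, Nb G z y) → Covered G S T z

/-- The least class of sets of vertices which is closed under the following three rules.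
* `extension`: `U` is built if every nonempty subset `Z` of `U` has an admissible triple
  `(S, T, Y)` such that `Y` is built;
* `nonneighbours`: `U` is built if for every infinite sequence `y 0, y 1, ...` of distinct
  pairwise nonadjacent vertices of `U` there is a number `n` such that the set of the vertices of
  `U` which are different from and nonadjacent to all of `y 0, ..., y n` is built;
* `substitution`: `U` is built if it is partitioned into parts (`v` and `w` are in the same part
  iff `c v = c w`) such that every part is built and is a module of the underlying graph of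
  `G[U]`, and every induced path `x, y, z, w` of the underlying graph of `G[U]` for which `x, y, z`
  is a directed path (in one of the two directions) is contained in one part. -/
inductive Built {V : Type u} (G : Digraph V) : Set V → Prop
  | extension (U : Set V) (S T Y : Set V → Set V)
      (adm : ∀ Z ⊆ U, Z.Nonempty → Admissible G Z (S Z) (T Z) (Y Z))
      (rest : ∀ Z ⊆ U, Z.Nonempty → Built G (Y Z)) : Built G U
  | nonneighbours (U : Set V) (n : (ℕ → V) → ℕ)
      (rest : ∀ y : ℕ → V, (∀ i, y i ∈ U) → (∀ i j, i ≠ j → y i ≠ y j ∧ ¬ Nb G (y i) (y j)) →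
        Built G {v | v ∈ U ∧ ∀ i ≤ n y, v ≠ y i ∧ ¬ Nb G v (y i)}) : Built G U
  | substitution (U : Set V) (c : V → V)
      (hmod : ∀ x ∈ U, ∀ y ∈ U, ∀ z ∈ U, c x = c y → c z ≠ c x → Nb G z x → Nb G z y)
      (hpath : ∀ x ∈ U, ∀ y ∈ U, ∀ z ∈ U, ∀ w ∈ U,
        (G.Adj x y ∧ G.Adj y z) ∨ (G.Adj z y ∧ G.Adj y x) → Nb G z w →
        ¬ Nb G x z → ¬ Nb G x w → ¬ Nb G y w → c x = c y ∧ c x = c z ∧ c x = c w)
      (hpart : ∀ v ∈ U, Built G {w | w ∈ U ∧ c w = c v}) : Built G U

end Pool.Agent.Lib.MP_9317e9_co.Cl
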