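import Mathlib
import Pool.Agent.Lib.MP_9317e9_co.Cl.Defs
import Pool.Agent.Lib.MP_9317e9_co.P4.Pieces

set_option autoImplicit false

universe u

namespace Pool.Agent.Lib.MP_9317e9_co.Cl

open Pool.Agent.Lib.MP_9317e9_co Pool.Agent.Lib.MP_9317e9_co.P4

variable {V : Type u}

/-- the hypotheses of the substitution rule -/
structure ModCond (G : Digraph V) (c : V → V) (Z : Set V) : Prop where
  hmod : ∀ x ∈ Z, ∀ y ∈ Z, ∀ z ∈ Z, c x = c y → c z ≠ c x → Nb G z x → Nb G z y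
  hpath : ∀ x ∈ Z, ∀ y ∈ Z, ∀ z ∈ Z, ∀ w ∈ Z,
    (G.Adj x y ∧ G.Adj y z) ∨ (G.Adj z y ∧ G.Adj y x) → Nb G z w →
    ¬ Nb G x z → ¬ Nb G x w → ¬ Nb G y w → c x = c y ∧ c x = c z ∧ c x = c w
  hgood : ∀ v ∈ Z, ∀ U ⊆ {w | w ∈ Z ∧ c w = c v}, Solv G U

lemma nb_rv {G : Digraph V} {x y : V} : Nb (rv G) x y ↔ Nb G x y := by
  unfold Nb rv
  exact Or.comm

lemma ModCond.reverse {G : Digraph V} {c : V → V} {Z : Set V} (h : ModCond G c Z) :
    ModCond (rv G) c Z where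
  hmod := by
    intro x hx y hy z hz h1 h2 h3
    rw [nb_rv] at *
    exact h.hmod x hx y hy z hz h1 h2 h3
  hpath := by
    intro x hx y hy z hz w hw h1 h2 h3 h4 h5
    rw [nb_rv] at *
    refine h.hpath x hx y hy z hz w hw ?_ h2 h3 h4 h5
    rcases h1 with ⟨h, h'⟩ | ⟨h, h'⟩
    · exact Or.inr ⟨h', h⟩
    · exact Or.inl ⟨h', h⟩
  hgood := fun v hv U hU => solv_rv (h.hgood v hv U hU)

lemma ModCond.mono {G : Digraph V} {c : V → V} {Z Z' : Set V} (h : ModCond G c Z)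
    (hZ : Z' ⊆ Z) : ModCond G c Z' where
  hmod := fun x hx y hy z hz => h.hmod x (hZ hx) y (hZ hy) z (hZ hz)
  hpath := fun x hx y hy z hz w hw => h.hpath x (hZ hx) y (hZ hy) z (hZ hz) w (hZ hw)
  hgood := fun v hv U hU => h.hgood v (hZ hv) U fun w hw => ⟨hZ (hU hw).1, (hU hw).2⟩

/-- the case in which the hiding set lies in the class of the hidden vertex -/
lemma good_of_class {G : Digraph V} (hG : ∀ v, ¬ G.Adj v v) {c : V → V} {Z M : Set V}
    (hC : ModCond G c Z) (hMZ : M ⊆ Z) (hMi : Indep G M)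
    (hnb : ∀ v ∈ Z, v ∉ M → ∃ m ∈ M, G.Adj v m ∨ G.Adj m v)
    {a : V} (haZ : a ∈ Z) (haM : a ∉ M) (ha1 : ∀ m ∈ M, ¬ G.Adj m a)
    (ha2 : ∀ m ∈ M, ∀ u ∈ Z, G.Adj m u → ¬ G.Adj u a)
    (hQ : ∀ q ∈ M, G.Adj a q → c q = c a) : Good G Z := by
  obtain ⟨q, hqM, haq⟩ : ∃ q ∈ M, G.Adj a q := by
    obtain ⟨m, hm, h | h⟩ := hnb a haZ haM
    · exact ⟨m, hm, h⟩
    · exact absurd h (ha1 m hm)
  have hqZ := hMZ hqM
  have hqa : c q = c a := hQ q hqM haq
  have hMM : ∀ x ∈ M, ∀ y ∈ M, ¬ Nb G x y := by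
    rintro x hx y hy (h | h)
    · exact hMi x hx y hy h
    · exact hMi y hy x hx h
  -- elements of `M` outside the class of `a` are nonadjacent to this class
  have hMout : ∀ m ∈ M, c m ≠ c a → ∀ x ∈ Z, c x = c a → ¬ Nb G m x := by
    intro m hm hma x hx hxa h
    exact hMM m hm q hqM (hC.hmod x hx q hqZ m (hMZ hm) (hxa.trans hqa.symm)
      (fun h' => hma (h'.trans hxa)) h)
  set T0 : Set V := {m | m ∈ M ∧ c m = c a} with hT0
  have hqT : q ∈ T0 := ⟨hqM, hqa⟩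
  have hT0i : Indep G T0 := fun x hx y hy => hMi x hx.1 y hy.1
  have hin : ∀ u ∈ Z, G.Adj u a → ∃ t ∈ T0, G.Adj u t := by
    intro u hu hua
    have huM : u ∉ M := fun h => ha1 u h hua
    by_cases huc : c u = c a
    · obtain ⟨m, hm, h | h⟩ := hnb u hu huM
      · refine ⟨m, ⟨hm, ?_⟩, h⟩
        by_contra hmc
        exact hMout m hm hmc u hu huc (Or.inr h)
      · exact absurd hua (ha2 m hm u hu h)
    · rcases hC.hmod a haZ q hqZ u hu hqa.symm huc (Or.inl hua) with h | h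
      · exact ⟨q, hqT, h⟩
      · exact absurd hua (ha2 q hqM u hu h)
  -- covering by `a` and `T0`
  have hcov : ∀ {S T : Set V}, a ∈ S → T0 ⊆ T → ∀ z ∈ Z, Nb G z a → Cov G S T z := by
    intro S T haS hT z hz h
    rcases h with h | h
    · obtain ⟨t, ht, h⟩ := hin z hz h
      exact Or.inr (Or.inr ⟨t, hT ht, h⟩)
    · exact Or.inl (Or.inr ⟨a, haS, h⟩)
  have hcov' : ∀ {S T : Set V}, a ∈ S → T0 ⊆ T → ∀ z ∈ Z, c z ≠ c a →
      ∀ x ∈ Z, c x = c a → Nb G z x → Cov G S T z := by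
    intro S T haS hT z hz hza x hx hxa h
    exact hcov haS hT z hz (hC.hmod x hx a haZ z hz hxa (fun h' => hza (h'.trans hxa)) h)
  set X1 : Set V := {w | (w ∈ Z ∧ c w = c a) ∧ w ≠ a ∧ ¬ G.Adj a w ∧ w ∉ T0 ∧
    ∀ t ∈ T0, ¬ G.Adj w t} with hX1
  have hX1Z : X1 ⊆ Z := fun w hw => hw.1.1
  have hX1a : ∀ w ∈ X1, ¬ G.Adj w a := by
    intro w hw h
    obtain ⟨t, ht, h⟩ := hin w hw.1.1 h
    exact hw.2.2.2.2 t ht h
  obtain ⟨W0, W1, A', B', hW, hd, ⟨a1, a2, a3⟩, ⟨b1, b2, b3⟩⟩ :=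
    hC.hgood a haZ X1 fun w hw => hw.1
  have hW0 : W0 ⊆ X1 := fun x hx => hW ▸ Or.inl hx
  have hW1 : W1 ⊆ X1 := fun x hx => hW ▸ Or.inr hx
  set S' : Set V := {x | x ∈ W0 ∧ (x ∈ A' ∨ ∃ a' ∈ A', G.Adj a' x)} with hS'
  set T' : Set V := {x | x ∈ W1 ∧ (x ∈ B' ∨ ∃ b' ∈ B', G.Adj x b')} with hT'
  have hS'X : S' ⊆ X1 := fun x hx => hW0 hx.1
  have hT'X : T' ⊆ X1 := fun x hx => hW1 hx.1
  have hA'X : A' ⊆ X1 := fun x hx => hW0 (a1 hx)
  have hB'X : B' ⊆ X1 := fun x hx => hW1 (b1 hx)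
  have hfull : ∀ x ∈ X1, Cov G S' T' x := by
    intro x hx
    have : x ∈ W0 ∪ W1 := by rw [hW]; exact hx
    rcases this with h | h
    · rcases a3 x h with h' | ⟨a', ha', h' | ⟨u, hu, h1, h2⟩⟩
      · exact Or.inl (Or.inl ⟨h, Or.inl h'⟩)
      · exact Or.inl (Or.inl ⟨h, Or.inr ⟨a', ha', h'⟩⟩)
      · exact Or.inl (Or.inr ⟨u, ⟨hu, Or.inr ⟨a', ha', h1⟩⟩, h2⟩)
    · rcases b3 x h with h' | ⟨a', ha', h' | ⟨u, hu, h1, h2⟩⟩
      · exact Or.inr (Or.inl ⟨h, Or.inl h'⟩)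
      · exact Or.inr (Or.inl ⟨h, Or.inr ⟨a', ha', h'⟩⟩)
      · exact Or.inr (Or.inr ⟨u, ⟨hu, Or.inr ⟨a', ha', h2⟩⟩, h1⟩)
  -- everything in the class of `a` is covered
  have hclass : ∀ x ∈ Z, c x = c a → Cov G (insert a S') (T0 ∪ T') x := by
    intro x hx hxa
    by_cases hx1 : x ∈ X1
    · exact cov_mono (Set.subset_insert _ _) Set.subset_union_right (hfull x hx1)
    · by_cases h1 : x = a
      · exact Or.inl (Or.inl (h1 ▸ Set.mem_insert _ _))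
      by_cases h2 : G.Adj a x
      · exact Or.inl (Or.inr ⟨a, Set.mem_insert _ _, h2⟩)
      by_cases h3 : x ∈ T0
      · exact Or.inr (Or.inl (Or.inl h3))
      by_cases h4 : ∀ t ∈ T0, ¬ G.Adj x t
      · exact absurd ⟨⟨hx, hxa⟩, h1, h2, h3, h4⟩ hx1
      · push Not at h4
        obtain ⟨t, ht, h⟩ := h4
        exact Or.inr (Or.inr ⟨t, Or.inl ht, h⟩)
  have hall : ∀ z ∈ Z, ∀ x ∈ Z, c x = c a → Nb G z x → Cov G (insert a S') (T0 ∪ T') z := by
    intro z hz x hx hxa h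
    by_cases hza : c z = c a
    · exact hclass z hz hza
    · exact hcov' (Set.mem_insert _ _) Set.subset_union_left z hz hza x hx hxa h
  have haT0 : a ∉ T0 := fun h => haM h.1
  refine ⟨insert a A', insert a S', B' ∪ {t | t ∈ T0 ∧ ¬ ∃ b ∈ B', G.Adj t b}, T0 ∪ T', ?_,
    Or.inl ?_, Or.inl ⟨a, Set.mem_insert _ _⟩⟩
  · exact {
      AS := Set.insert_subset_insert fun x hx => ⟨a1 hx, Or.inl hx⟩
      SZ := Set.insert_subset haZ (hS'X.trans hX1Z)
      BT := by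
        rintro x (hx | hx)
        · exact Or.inr ⟨b1 hx, Or.inl hx⟩
        · exact Or.inl hx.1
      TZ := by
        rintro x (hx | hx)
        · exact hMZ hx.1
        · exact hX1Z (hT'X hx)
      disj := by
        rintro x (rfl | hx) (hx' | hx')
        · exact haT0 hx'
        · exact (hT'X hx').2.1 rfl
        · exact (hS'X hx).2.2.2.1 hx'
        · exact Set.disjoint_left.1 hd hx.1 hx'.1
      indA := by
        rintro x (rfl | hx) y (rfl | hy) hxy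
        · exact hG _ hxy
        · exact (hA'X hy).2.2.1 hxy
        · exact hX1a x (hA'X hx) hxy
        · exact a2 x hx y hy hxy
      indB := by
        rintro x (hx | hx) y (hy | hy) hxy
        · exact b2 x hx y hy hxy
        · exact (hB'X hx).2.2.2.2 y hy.1 hxy
        · exact hx.2 ⟨y, hy, hxy⟩
        · exact hT0i x hx.1 y hy.1 hxy
      domA := by
        rintro s (rfl | hs)
        · exact Or.inl (Set.mem_insert _ _)
        · rcases hs.2 with h | ⟨a', ha', h⟩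
          · exact Or.inl (Or.inr h)
          · exact Or.inr ⟨a', Or.inr ha', h⟩
      domB := by
        rintro t (ht | ht)
        · by_cases h : ∃ b ∈ B', G.Adj t b
          · obtain ⟨b, hb, h⟩ := h
            exact Or.inr ⟨b, Or.inl hb, h⟩
          · exact Or.inl (Or.inr ⟨ht, h⟩)
        · rcases ht.2 with h | ⟨b, hb, h⟩
          · exact Or.inl (Or.inl h)
          · exact Or.inr ⟨b, Or.inl hb, h⟩
      covA := by
        rintro x hx b (rfl | hb) hxb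
        · exact hall x hx _ haZ rfl (Or.inl hxb)
        · exact hall x hx b (hX1Z (hA'X hb)) (hA'X hb).1.2 (Or.inl hxb)
      covB := by
        rintro x hx b (hb | hb) hbx
        · exact hall x hx b (hX1Z (hB'X hb)) (hB'X hb).1.2 (Or.inr hbx)
        · exact hall x hx b (hMZ hb.1.1) hb.1.2 (Or.inr hbx) }
  · by_cases h : ∃ b ∈ B', G.Adj q b
    · obtain ⟨b, hb, _⟩ := h
      exact ⟨b, Or.inl hb⟩
    · exact ⟨q, Or.inr ⟨hqT, h⟩⟩

lemma exists_step {G : Digraph V} (hG : ∀ v, ¬ G.Adj v v) {c : V → V} {Z : Set V}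
    (hC : ModCond G c Z) (hZ : ¬ Good G Z) : ∃ a Q Y, Step G Z a Q Y := by
  obtain ⟨M, -, hMZ, hMi, hmax⟩ := exists_maxIndep (G := G) (U := Z) (K := ∅)
    (by simp [Indep]) (Set.empty_subset _)
  have hnb : ∀ v ∈ Z, v ∉ M → ∃ m ∈ M, G.Adj v m ∨ G.Adj m v := by
    intro v hv hvM
    by_contra hno
    push Not at hno
    apply hvM
    apply hmax v hv
    rintro x (rfl | hx) y (rfl | hy) hxy
    · exact hG _ hxy
    · exact (hno y hy).1 hxy
    · exact (hno x hx).2 hxy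
    · exact hMi x hx y hy hxy
  -- there is a vertex not reached
  obtain ⟨a, haZ, haM, ha1, ha2⟩ : ∃ a ∈ Z, a ∉ M ∧ (∀ m ∈ M, ¬ G.Adj m a) ∧
      ∀ m ∈ M, ∀ u ∈ Z, G.Adj m u → ¬ G.Adj u a := by
    by_contra hno
    apply hZ
    have hS : ∀ x ∈ Z, Cov G {x | x ∈ Z ∧ (x ∈ M ∨ ∃ m ∈ M, G.Adj m x)} ∅ x := by
      intro x hx
      by_cases h1 : x ∈ M
      · exact Or.inl (Or.inl ⟨hx, Or.inl h1⟩)
      by_cases h2 : ∀ m ∈ M, ¬ G.Adj m x
      · have h3 : ¬ ∀ m ∈ M, ∀ u ∈ Z, G.Adj m u → ¬ G.Adj u x :=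
          fun h3 => hno ⟨x, hx, h1, h2, h3⟩
        push Not at h3
        obtain ⟨m, hm, u, hu, hmu, hux⟩ := h3
        exact Or.inl (Or.inr ⟨u, ⟨hu, Or.inr ⟨m, hm, hmu⟩⟩, hux⟩)
      · push Not at h2
        obtain ⟨m, hm, hmx⟩ := h2
        exact Or.inl (Or.inl ⟨hx, Or.inr ⟨m, hm, hmx⟩⟩)
    refine ⟨M, {x | x ∈ Z ∧ (x ∈ M ∨ ∃ m ∈ M, G.Adj m x)}, ∅, ∅, ?_, Or.inr hS, Or.inr hS⟩
    exact {
      AS := fun x hx => ⟨hMZ hx, Or.inl hx⟩
      SZ := fun x hx => hx.1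
      BT := Set.empty_subset _
      TZ := Set.empty_subset _
      disj := fun x _ h => h
      indA := hMi
      indB := by simp [Indep]
      domA := fun s hs => hs.2
      domB := fun t ht => absurd ht (Set.notMem_empty t)
      covA := fun x hx _ _ _ => hS x hx
      covB := fun x hx _ _ _ => hS x hx }
  set Q : Set V := {q | q ∈ M ∧ G.Adj a q} with hQ
  have hQZ : Q ⊆ Z := fun q hq => hMZ hq.1
  have hQi : Indep G Q := fun x hx y hy => hMi x hx.1 y hy.1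
  -- the hiding set is disjoint from the class of `a`
  have hQc : ∀ q ∈ Q, c q ≠ c a := by
    have h0 : ¬ ∀ q ∈ M, G.Adj a q → c q = c a := fun h =>
      hZ (good_of_class hG hC hMZ hMi hnb haZ haM ha1 ha2 h)
    push Not at h0
    obtain ⟨q0, hq0, haq0, hc0⟩ := h0
    intro q hq hqa
    rcases hC.hmod a haZ q (hQZ hq) q0 (hMZ hq0) hqa.symm hc0 (Or.inr haq0) with h | h
    · exact hMi q0 hq0 q hq.1 h
    · exact hMi q hq.1 q0 hq0 h
  have hQne : Q.Nonempty := by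
    obtain ⟨m, hm, h | h⟩ := hnb a haZ haM
    · exact ⟨m, hm, h⟩
    · exact absurd h (ha1 m hm)
  have hin : ∀ u ∈ Z, G.Adj u a → ∃ q ∈ Q, G.Adj u q := by
    intro u hu hua
    by_contra hno
    push Not at hno
    have huM : u ∉ M := fun h => ha1 u h hua
    obtain ⟨m, hm, h | h⟩ := hnb u hu huM
    · have hmQ : ¬ G.Adj a m := fun h' => hno m ⟨hm, h'⟩ h
      obtain ⟨q, hq⟩ := hQne
      refine hQc q hq (hC.hpath q (hQZ hq) a haZ u hu m (hMZ hm) (Or.inr ⟨hua, hq.2⟩)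
        (Or.inl h) ?_ ?_ ?_).1
      · rintro (h1 | h1)
        · exact ha2 q hq.1 u hu h1 hua
        · exact hno q hq h1
      · rintro (h1 | h1)
        · exact hMi q hq.1 m hm h1
        · exact hMi m hm q hq.1 h1
      · rintro (h1 | h1)
        · exact hmQ h1
        · exact ha1 m hm h1
    · exact ha2 m hm u hu h hua
  set Z' : Set V := {z | z ∈ Z ∧ z ∉ Q ∧ (∀ q ∈ Q, ¬ G.Adj z q) ∧ z ≠ a ∧ ¬ G.Adj a z} with hZ'
  have hZa : ∀ z ∈ Z', ¬ G.Adj z a := by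
    intro z hz hza
    obtain ⟨q, hq, h⟩ := hin z hz.1 hza
    exact hz.2.2.1 q hq h
  have hnot : ∀ z ∈ Z, z ∉ Z' → z ∈ Q ∨ (∃ q ∈ Q, G.Adj z q) ∨ z = a ∨ G.Adj a z := by
    intro z hz hz'
    by_contra hno
    push Not at hno
    exact hz' ⟨hz, hno.1, hno.2.1, hno.2.2.1, hno.2.2.2⟩
  have hdom : ∀ q ∈ Q, ∀ y ∈ Z', (∃ q' ∈ Q, G.Adj q' y) → G.Adj q y := by
    rintro q hq y hy ⟨q', hq', hq'y⟩
    by_contra hqy
    have h3 := hC.hpath y hy.1 q' (hQZ hq') a haZ q (hQZ hq) (Or.inr ⟨hq'.2, hq'y⟩)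
      (Or.inl hq.2) ?_ ?_ ?_
    · exact hQc q' hq' (h3.1.symm.trans h3.2.1)
    · rintro (h1 | h1)
      · exact hZa y hy h1
      · exact hy.2.2.2.2 h1
    · rintro (h1 | h1)
      · exact hy.2.2.1 q hq h1
      · exact hqy h1
    · rintro (h1 | h1)
      · exact hQi q' hq' q hq h1
      · exact hQi q hq q' hq' h1
  refine ⟨a, Q, {y | y ∈ Z' ∧ ∃ q ∈ Q, G.Adj q y}, ?_⟩
  exact {
    aZ := haZ
    QZ := hQZ
    YZ := fun y hy => hy.1.1
    Qne := hQne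
    indQ := hQi
    aQ := fun q hq => hq.2
    inA := hin
    QY := fun q hq y hy => hdom q hq y hy.1 hy.2
    YQ := fun y hy => ⟨hy.1.2.1, hy.1.2.2.1⟩
    aY := fun y hy => ⟨hy.1.2.2.2.1, hZa y hy.1, hy.1.2.2.2.2⟩
    bd := by
      rintro z hz y ⟨hy, q, hq, hqy⟩ hzy
      by_cases hz' : z ∈ Z'
      · left
        refine ⟨hz', ?_⟩
        by_contra hno
        push Not at hno
        refine hQc q hq (hC.hpath a haZ q (hQZ hq) y hy.1 z hz (Or.inl ⟨hq.2, hqy⟩) hzy.symm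
          ?_ ?_ ?_).1.symm
        · rintro (h1 | h1)
          · exact hy.2.2.2.2 h1
          · exact hZa y hy h1
        · rintro (h1 | h1)
          · exact hz'.2.2.2.2 h1
          · exact hZa z hz' h1
        · rintro (h1 | h1)
          · exact hno q hq h1
          · exact hz'.2.2.1 q hq h1
      · exact Or.inr (hnot z hz hz')
    outQ := by
      intro z hz q hq hqz
      by_cases hz' : z ∈ Z'
      · exact Or.inl ⟨hz', q, hq, hqz⟩
      · exact Or.inr (hnot z hz hz') }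

lemma double_step {G : Digraph V} (hG : ∀ v, ¬ G.Adj v v) {c : V → V} {Z : Set V}
    (hC : ModCond G c Z) (hZ : ¬ Good G Z) :
    ∃ a Q Y b P Z', Step G Z a Q Y ∧ Step (rv G) Y b P Z' ∧ ¬ Good G Z' := by
  obtain ⟨a, Q, Y, h1⟩ := exists_step hG hC hZ
  have hY : ¬ Good G Y := fun h => hZ (h1.good hG h)
  have hY' : ¬ Good (rv G) Y := fun h => hY (good_rv h)
  obtain ⟨b, P, Z', h2⟩ := exists_step (G := rv G) hG (hC.mono h1.YZ).reverse hY'
  exact ⟨a, Q, Y, b, P, Z', h1, h2, fun h => hY' (h2.good (G := rv G) hG (good_rv h))⟩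

theorem good_all {G : Digraph V} (hG : ∀ v, ¬ G.Adj v v) {c : V → V} {Z₀ : Set V}
    (hC : ModCond G c Z₀) : Good G Z₀ := by
  by_contra h0
  have step : ∀ Z : {Z : Set V // Z ⊆ Z₀ ∧ ¬ Good G Z}, ∃ (a : V) (Q Y : Set V) (b : V)
      (P : Set V) (Z' : {Z : Set V // Z ⊆ Z₀ ∧ ¬ Good G Z}),
      Step G Z.1 a Q Y ∧ Step (rv G) Y b P Z'.1 := by
    rintro ⟨Z, hZ, hZg⟩
    obtain ⟨a, Q, Y, b, P, Z', hs1, hs2, hg⟩ := double_step hG (hC.mono hZ) hZg
    exact ⟨a, Q, Y, b, P, ⟨Z', (hs2.YZ.trans hs1.YZ).trans hZ, hg⟩, hs1, hs2⟩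
  choose a Q Y b P nx h1 h2 using step
  let Zs : ℕ → {Z : Set V // Z ⊆ Z₀ ∧ ¬ Good G Z} := fun n => nx^[n] ⟨Z₀, subset_rfl, h0⟩
  have hsucc : ∀ n, Zs (n + 1) = nx (Zs n) := fun n => by
    simp only [Zs, Function.iterate_succ_apply']
  apply h0
  refine seq_good hG (fun n => (Zs n).1) (fun n => Y (Zs n)) (fun n => Q (Zs n))
    (fun n => P (Zs n)) (fun n => a (Zs n)) (fun n => b (Zs n)) (fun n => h1 (Zs n)) ?_
  intro n
  rw [hsucc]
  exact h2 (Zs n)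

/-- the substitution rule -/
theorem solv_of_modCond {G : Digraph V} (hG : ∀ v, ¬ G.Adj v v) {c : V → V} {Y : Set V}
    (hC : ModCond G c Y) : ∀ U ⊆ Y, Solv G U := by
  intro U hU
  obtain ⟨A, S, B, T, hc, h⟩ := exists_full (G := G) (Z := U)
    fun Z' hZ' => good_all hG (hC.mono (hZ'.trans hU))
  exact solv_of_full hc h

end Pool.Agent.Lib.MP_9317e9_co.Cl
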