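import Mathlib
import Pool.Agent.Lib.MP_9317e9_co.Cl.Mod

set_option autoImplicit false

universe u

namespace Pool.Agent.Lib.MP_9317e9_co.Cl

open Pool.Agent.Lib.MP_9317e9_co Pool.Agent.Lib.MP_9317e9_co.P4

variable {V : Type u}

/-- if every nonempty subset has a nonempty configuration, then the set is solved -/
theorem solv_of_local {G : Digraph V} {Z : Set V}
    (h : ∀ Z' ⊆ Z, Z'.Nonempty → ∃ A S B T, Cfg G Z' A S B T ∧ (S.Nonempty ∨ T.Nonempty)) :
    Solv G Z := by
  obtain ⟨⟨A, S, B, T⟩, hm⟩ := zorn_le₀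
    {p : Set V × Set V × Set V × Set V | Cfg G Z p.1 p.2.1 p.2.2.1 p.2.2.2} (by
      intro c hc hchain
      refine ⟨({x | ∃ p ∈ c, x ∈ p.1}, {x | ∃ p ∈ c, x ∈ p.2.1}, {x | ∃ p ∈ c, x ∈ p.2.2.1},
        {x | ∃ p ∈ c, x ∈ p.2.2.2}), ?_, ?_⟩
      · exact {
          AS := by rintro x ⟨p, hp, hx⟩; exact ⟨p, hp, (hc hp).AS hx⟩
          SZ := by rintro x ⟨p, hp, hx⟩; exact (hc hp).SZ hx
          BT := by rintro x ⟨p, hp, hx⟩; exact ⟨p, hp, (hc hp).BT hx⟩
          TZ := by rintro x ⟨p, hp, hx⟩; exact (hc hp).TZ hx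
          disj := by
            rintro x ⟨p, hp, hx⟩ ⟨p', hp', hx'⟩
            rcases hchain.total hp hp' with hle | hle
            · exact (hc hp').disj x (hle.2.1 hx) hx'
            · exact (hc hp).disj x hx (hle.2.2.2 hx')
          indA := by
            rintro x ⟨p, hp, hx⟩ y ⟨p', hp', hy⟩
            rcases hchain.total hp hp' with hle | hle
            · exact (hc hp').indA x (hle.1 hx) y hy
            · exact (hc hp).indA x hx y (hle.1 hy)
          indB := by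
            rintro x ⟨p, hp, hx⟩ y ⟨p', hp', hy⟩
            rcases hchain.total hp hp' with hle | hle
            · exact (hc hp').indB x (hle.2.2.1 hx) y hy
            · exact (hc hp).indB x hx y (hle.2.2.1 hy)
          domA := by
            rintro x ⟨p, hp, hx⟩
            rcases (hc hp).domA x hx with h | ⟨a, ha, h⟩
            · exact Or.inl ⟨p, hp, h⟩
            · exact Or.inr ⟨a, ⟨p, hp, ha⟩, h⟩
          domB := by
            rintro x ⟨p, hp, hx⟩
            rcases (hc hp).domB x hx with h | ⟨a, ha, h⟩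
            · exact Or.inl ⟨p, hp, h⟩
            · exact Or.inr ⟨a, ⟨p, hp, ha⟩, h⟩
          covA := by
            rintro x hx a ⟨p, hp, ha⟩ hxa
            exact cov_mono (fun y hy => ⟨p, hp, hy⟩) (fun y hy => ⟨p, hp, hy⟩)
              ((hc hp).covA x hx a ha hxa)
          covB := by
            rintro x hx a ⟨p, hp, ha⟩ hxa
            exact cov_mono (fun y hy => ⟨p, hp, hy⟩) (fun y hy => ⟨p, hp, hy⟩)
              ((hc hp).covB x hx a ha hxa) }
      · intro p hp
        exact ⟨fun x hx => ⟨p, hp, hx⟩, fun x hx => ⟨p, hp, hx⟩, fun x hx => ⟨p, hp, hx⟩,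
          fun x hx => ⟨p, hp, hx⟩⟩)
  have hc : Cfg G Z A S B T := hm.prop
  refine solv_of_full hc ?_
  by_contra hno
  push Not at hno
  obtain ⟨z, hz, hzc⟩ := hno
  set R : Set V := {x | x ∈ Z ∧ ¬ Cov G S T x} with hR
  have hRZ : R ⊆ Z := fun x hx => hx.1
  obtain ⟨A', S', B', T', hc', hne⟩ := h R hRZ ⟨z, hz, hzc⟩
  have hSR : ∀ x ∈ S, x ∉ R := fun x hx hxR => hxR.2 (Or.inl (Or.inl hx))
  have hTR : ∀ x ∈ T, x ∉ R := fun x hx hxR => hxR.2 (Or.inr (Or.inl hx))
  have hA'R : A' ⊆ R := hc'.AS.trans hc'.SZ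
  have hB'R : B' ⊆ R := hc'.BT.trans hc'.TZ
  have hnew : Cfg G Z (A ∪ A') (S ∪ S') (B ∪ B') (T ∪ T') := {
    AS := Set.union_subset_union hc.AS hc'.AS
    SZ := Set.union_subset hc.SZ (hc'.SZ.trans hRZ)
    BT := Set.union_subset_union hc.BT hc'.BT
    TZ := Set.union_subset hc.TZ (hc'.TZ.trans hRZ)
    disj := by
      rintro x (hx | hx) (hx' | hx')
      · exact hc.disj x hx hx'
      · exact hSR x hx (hc'.TZ hx')
      · exact hTR x hx' (hc'.SZ hx)
      · exact hc'.disj x hx hx'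
    indA := by
      rintro x (hx | hx) y (hy | hy) hxy
      · exact hc.indA x hx y hy hxy
      · exact (hA'R hy).2 (Or.inl (Or.inr ⟨x, hc.AS hx, hxy⟩))
      · exact (hA'R hx).2 (hc.covA x (hA'R hx).1 y hy hxy)
      · exact hc'.indA x hx y hy hxy
    indB := by
      rintro x (hx | hx) y (hy | hy) hxy
      · exact hc.indB x hx y hy hxy
      · exact (hB'R hy).2 (hc.covB y (hB'R hy).1 x hx hxy)
      · exact (hB'R hx).2 (Or.inr (Or.inr ⟨y, hc.BT hy, hxy⟩))
      · exact hc'.indB x hx y hy hxy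
    domA := by
      rintro s (hs | hs)
      · rcases hc.domA s hs with h | ⟨a, ha, h⟩
        · exact Or.inl (Or.inl h)
        · exact Or.inr ⟨a, Or.inl ha, h⟩
      · rcases hc'.domA s hs with h | ⟨a, ha, h⟩
        · exact Or.inl (Or.inr h)
        · exact Or.inr ⟨a, Or.inr ha, h⟩
    domB := by
      rintro s (hs | hs)
      · rcases hc.domB s hs with h | ⟨a, ha, h⟩
        · exact Or.inl (Or.inl h)
        · exact Or.inr ⟨a, Or.inl ha, h⟩
      · rcases hc'.domB s hs with h | ⟨a, ha, h⟩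
        · exact Or.inl (Or.inr h)
        · exact Or.inr ⟨a, Or.inr ha, h⟩
    covA := by
      rintro x hx a (ha | ha) hxa
      · exact cov_mono Set.subset_union_left Set.subset_union_left (hc.covA x hx a ha hxa)
      · by_cases hxc : Cov G S T x
        · exact cov_mono Set.subset_union_left Set.subset_union_left hxc
        · exact cov_mono Set.subset_union_right Set.subset_union_right
            (hc'.covA x ⟨hx, hxc⟩ a ha hxa)
    covB := by
      rintro x hx a (ha | ha) hxa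
      · exact cov_mono Set.subset_union_left Set.subset_union_left (hc.covB x hx a ha hxa)
      · by_cases hxc : Cov G S T x
        · exact cov_mono Set.subset_union_left Set.subset_union_left hxc
        · exact cov_mono Set.subset_union_right Set.subset_union_right
            (hc'.covB x ⟨hx, hxc⟩ a ha hxa) }
  have hle := hm.le_of_ge (y := (A ∪ A', S ∪ S', B ∪ B', T ∪ T')) hnew
    ⟨Set.subset_union_left, Set.subset_union_left, Set.subset_union_left, Set.subset_union_left⟩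
  have hSle : S ∪ S' ⊆ S := hle.2.1
  have hTle : T ∪ T' ⊆ T := hle.2.2.2
  rcases hne with ⟨x, hx⟩ | ⟨x, hx⟩
  · exact hSR x (hSle (Or.inr hx)) (hc'.SZ hx)
  · exact hTR x (hTle (Or.inr hx)) (hc'.TZ hx)

/-- an admissible triple whose third set is solvable gives a nonempty configuration -/
lemma cfg_of_admissible {G : Digraph V} {Z S T Y : Set V} (h : Admissible G Z S T Y)
    (hY : ∀ U ⊆ Y, Solv G U) :
    ∃ A' S' B' T', Cfg G Z A' S' B' T' ∧ (S'.Nonempty ∨ T'.Nonempty) := by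
  set Y1 : Set V := {y | y ∈ Y ∧ ¬ Covered G S T y} with hY1
  have hY1Z : Y1 ⊆ Z := fun y hy => h.YZ hy.1
  obtain ⟨W0, W1, A', B', hW, hd, ⟨a1, a2, a3⟩, ⟨b1, b2, b3⟩⟩ := hY Y1 fun y hy => hy.1
  have hW0 : W0 ⊆ Y1 := fun x hx => hW ▸ Or.inl hx
  have hW1 : W1 ⊆ Y1 := fun x hx => hW ▸ Or.inr hx
  set S' : Set V := {x | x ∈ W0 ∧ (x ∈ A' ∨ ∃ a' ∈ A', G.Adj a' x)} with hS'
  set T' : Set V := {x | x ∈ W1 ∧ (x ∈ B' ∨ ∃ b' ∈ B', G.Adj x b')} with hT'
  have hS'Y : S' ⊆ Y1 := fun x hx => hW0 hx.1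
  have hT'Y : T' ⊆ Y1 := fun x hx => hW1 hx.1
  have hA'Y : A' ⊆ Y1 := fun x hx => hW0 (a1 hx)
  have hB'Y : B' ⊆ Y1 := fun x hx => hW1 (b1 hx)
  have hfull : ∀ x ∈ Y1, Cov G S' T' x := by
    intro x hx
    have : x ∈ W0 ∪ W1 := by rw [hW]; exact hx
    rcases this with h | h
    · rcases a3 x h with h' | ⟨a', ha', h' | ⟨u, hu, h1, h2⟩⟩
      · exact Or.inl (Or.inl ⟨h, Or.inl h'⟩)
      · exact Or.inl (Or.inl ⟨h, Or.inr ⟨a', ha', h'⟩⟩)
      · exact Or.inl (Or.inr ⟨u, ⟨hu, Or.inr ⟨a', ha', h1⟩⟩, h2⟩)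
    · rcases b3 x h with h' | ⟨a', ha', h' | ⟨u, hu, h1, h2⟩⟩
      · exact Or.inr (Or.inl ⟨h, Or.inl h'⟩)
      · exact Or.inr (Or.inl ⟨h, Or.inr ⟨a', ha', h'⟩⟩)
      · exact Or.inr (Or.inr ⟨u, ⟨hu, Or.inr ⟨a', ha', h2⟩⟩, h1⟩)
  have hcovY : ∀ x ∈ Y, Cov G (S ∪ S') (T ∪ T') x := by
    intro x hx
    by_cases hc : Covered G S T x
    · exact cov_mono Set.subset_union_left Set.subset_union_left hc
    · exact cov_mono Set.subset_union_right Set.subset_union_right (hfull x ⟨hx, hc⟩)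
  have hcov : ∀ z ∈ Z, ((∃ s ∈ S, G.Adj z s) ∨ (∃ t ∈ T, G.Adj t z) ∨ ∃ y ∈ Y, Nb G z y) →
      Cov G (S ∪ S') (T ∪ T') z := by
    intro z hz hz'
    by_cases hzY : z ∈ Y
    · exact hcovY z hzY
    · exact cov_mono Set.subset_union_left Set.subset_union_left (h.cover z hz hzY hz')
  obtain ⟨L, hLS, hLi, hLd⟩ := h.kernel {s | s ∈ S ∧ ¬ ∃ a ∈ A', G.Adj a s} fun s hs => hs.1
  obtain ⟨K, hKT, hKi, hKd⟩ := h.sink {t | t ∈ T ∧ ¬ ∃ b ∈ B', G.Adj t b} fun t ht => ht.1
  refine ⟨L ∪ A', S ∪ S', K ∪ B', T ∪ T', ?_, ?_⟩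
  · exact {
      AS := by
        rintro x (hx | hx)
        · exact Or.inl (hLS hx).1
        · exact Or.inr ⟨a1 hx, Or.inl hx⟩
      SZ := Set.union_subset h.SZ (hS'Y.trans hY1Z)
      BT := by
        rintro x (hx | hx)
        · exact Or.inl (hKT hx).1
        · exact Or.inr ⟨b1 hx, Or.inl hx⟩
      TZ := Set.union_subset h.TZ (hT'Y.trans hY1Z)
      disj := by
        rintro x (hx | hx) (hx' | hx')
        · exact Set.disjoint_left.1 h.disj hx hx'
        · exact (hT'Y hx').2 (Or.inl (Or.inl hx))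
        · exact (hS'Y hx).2 (Or.inr (Or.inl hx'))
        · exact Set.disjoint_left.1 hd hx.1 hx'.1
      indA := by
        rintro x (hx | hx) y (hy | hy) hxy
        · exact hLi x hx y hy hxy
        · exact (hA'Y hy).2 (Or.inl (Or.inr ⟨x, (hLS hx).1, hxy⟩))
        · exact (hLS hy).2 ⟨x, hx, hxy⟩
        · exact a2 x hx y hy hxy
      indB := by
        rintro x (hx | hx) y (hy | hy) hxy
        · exact hKi x hx y hy hxy
        · exact (hKT hx).2 ⟨y, hy, hxy⟩
        · exact (hB'Y hx).2 (Or.inr (Or.inr ⟨y, (hKT hy).1, hxy⟩))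
        · exact b2 x hx y hy hxy
      domA := by
        rintro s (hs | hs)
        · by_cases hd : ∃ a ∈ A', G.Adj a s
          · obtain ⟨a, ha, hd⟩ := hd
            exact Or.inr ⟨a, Or.inr ha, hd⟩
          · rcases hLd s ⟨hs, hd⟩ with h | ⟨a, ha, h⟩
            · exact Or.inl (Or.inl h)
            · exact Or.inr ⟨a, Or.inl ha, h⟩
        · rcases hs.2 with h | ⟨a, ha, h⟩
          · exact Or.inl (Or.inr h)
          · exact Or.inr ⟨a, Or.inr ha, h⟩
      domB := by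
        rintro s (hs | hs)
        · by_cases hd : ∃ a ∈ B', G.Adj s a
          · obtain ⟨a, ha, hd⟩ := hd
            exact Or.inr ⟨a, Or.inr ha, hd⟩
          · rcases hKd s ⟨hs, hd⟩ with h | ⟨a, ha, h⟩
            · exact Or.inl (Or.inl h)
            · exact Or.inr ⟨a, Or.inl ha, h⟩
        · rcases hs.2 with h | ⟨a, ha, h⟩
          · exact Or.inl (Or.inr h)
          · exact Or.inr ⟨a, Or.inr ha, h⟩
      covA := by
        rintro x hx a (ha | ha) hxa
        · exact hcov x hx (Or.inl ⟨a, (hLS ha).1, hxa⟩)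
        · exact hcov x hx (Or.inr (Or.inr ⟨a, (hA'Y ha).1, Or.inl hxa⟩))
      covB := by
        rintro x hx b (hb | hb) hbx
        · exact hcov x hx (Or.inr (Or.inl ⟨b, (hKT hb).1, hbx⟩))
        · exact hcov x hx (Or.inr (Or.inr ⟨b, (hB'Y hb).1, Or.inr hbx⟩)) }
  · rcases h.nonempty with ⟨x, hx⟩ | ⟨x, hx⟩ | ⟨x, hx⟩
    · exact Or.inl ⟨x, Or.inl hx⟩
    · exact Or.inr ⟨x, Or.inl hx⟩
    · rcases hcovY x hx with (h | ⟨y, h, _⟩) | (h | ⟨y, h, _⟩)
      · exact Or.inl ⟨x, h⟩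
      · exact Or.inl ⟨y, h⟩
      · exact Or.inr ⟨x, h⟩
      · exact Or.inr ⟨y, h⟩

/-- every induced subdigraph on a subset of a built set satisfies the conclusion -/
theorem solv_of_built {G : Digraph V} (hG : ∀ v, ¬ G.Adj v v) {U : Set V} (hU : Built G U) :
    ∀ U' ⊆ U, Solv G U' := by
  induction hU with
  | extension U S T Y adm _ ih =>
    intro U' hU'
    refine solv_of_local fun Z hZ hne => ?_
    exact cfg_of_admissible (adm Z (hZ.trans hU') hne) (ih Z (hZ.trans hU') hne)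
  | nonneighbours U n _ ih =>
    apply solv_of_hereditary hG (Y := U) (R0 := ∅) (R1 := ∅)
    · intro v hv
      exact Or.inl hv
    · intro S hS
      exact ⟨∅, Set.empty_subset _, by simp [Indep], fun v hv => absurd (hS hv) (Set.notMem_empty v)⟩
    · intro S hS
      exact ⟨∅, Set.empty_subset _, by simp [Indep], fun v hv => absurd (hS hv) (Set.notMem_empty v)⟩
    · intro y hy1 hy2
      refine ⟨n y, fun U' hU' => ih y (fun i => (hy1 i).1) (fun i j hij => ?_) U' fun v hv => ?_⟩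
      · refine ⟨(hy2 i j hij).1, ?_⟩
        rintro (h | h)
        · exact (hy2 i j hij).2 h
        · exact (hy2 j i (Ne.symm hij)).2 h
      · obtain ⟨h1, h2⟩ := hU' hv
        refine ⟨h1, fun i hi => ⟨(h2 i hi).1, ?_⟩⟩
        rintro (h | h)
        · exact (h2 i hi).2.1 h
        · exact (h2 i hi).2.2 h
  | substitution U c hmod hpath _ ih =>
    exact solv_of_modCond hG ⟨hmod, hpath, fun v hv U' hU' => ih v hv U' hU'⟩

theorem main {V : Type u} (G : Digraph V) (hG : ∀ v, ¬ G.Adj v v) (hT : Built G Set.univ) :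
    ∃ W : Set V, (∃ A, QK G W A) ∧ ∃ B, QS G Wᶜ B := by
  obtain ⟨W0, W1, A, B, hW, hd, hA, hB⟩ := solv_of_built hG hT Set.univ subset_rfl
  have : W1 = W0ᶜ := by
    ext v; constructor
    · intro h h'; exact Set.disjoint_left.1 hd h' h
    · intro h
      have : v ∈ W0 ∪ W1 := hW ▸ Set.mem_univ v
      exact this.resolve_left h
  subst this
  exact ⟨W0, ⟨A, hA⟩, B, hB⟩

end Pool.Agent.Lib.MP_9317e9_co.Cl
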