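import Mathlib
import Pool.Agent.Lib.MP_9317e9_co.Cl.Main

set_option autoImplicit false

universe u

namespace Pool.Agent.Lib.MP_9317e9_co.Cl

open Pool.Agent.Lib.MP_9317e9_co Pool.Agent.Lib.MP_9317e9_co.P4

variable {V : Type u}

/-- subsets of built sets are built -/
theorem built_subset {G : Digraph V} {U : Set V} (h : Built G U) : ∀ U' ⊆ U, Built G U' := by
  induction h with
  | extension U S T Y adm rest _ =>
    intro U' hU'
    exact Built.extension U' S T Y (fun Z hZ => adm Z (hZ.trans hU'))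
      (fun Z hZ => rest Z (hZ.trans hU'))
  | nonneighbours U n _ ih =>
    intro U' hU'
    refine Built.nonneighbours U' n fun y h1 h2 => ih y (fun i => hU' (h1 i)) h2 _ ?_
    rintro v ⟨hv, hv'⟩
    exact ⟨hU' hv, hv'⟩
  | substitution U c hmod hpath _ ih =>
    intro U' hU'
    refine Built.substitution U' c
      (fun x hx y hy z hz => hmod x (hU' hx) y (hU' hy) z (hU' hz))
      (fun x hx y hy z hz w hw => hpath x (hU' hx) y (hU' hy) z (hU' hz) w (hU' hw))
      (fun v hv => ih v (hU' hv) _ ?_)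
    rintro w ⟨hw, hw'⟩
    exact ⟨hU' hw, hw'⟩

lemma built_empty (G : Digraph V) : Built G ∅ :=
  Built.nonneighbours ∅ (fun _ => 0) fun _ hy _ => absurd (hy 0) (Set.notMem_empty _)

/-- Every subset `U` of `X` is covered by a kernel-perfect set and a disjoint sink-perfect set. -/
def Splits (G : Digraph V) (X : Set V) : Prop :=
  ∀ U ⊆ X, ∃ S T : Set V, S ⊆ U ∧ T ⊆ U ∧ Disjoint S T ∧ KernelPerfect G S ∧ SinkPerfect G T ∧
    ∀ v ∈ U, Covered G S T v

/-- the union of a built set and a set which splits is built -/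
theorem built_union_splits {G : Digraph V} {X Y : Set V} (hX : Splits G X) (hY : Built G Y) :
    ∀ U ⊆ Y ∪ X, Built G U := by
  classical
  intro U hU
  have hX' : ∀ Z : Set V, ∃ p : Set V × Set V, p.1 ⊆ Z ∩ X ∧ p.2 ⊆ Z ∩ X ∧ Disjoint p.1 p.2 ∧
      KernelPerfect G p.1 ∧ SinkPerfect G p.2 ∧ ∀ v ∈ Z ∩ X, Covered G p.1 p.2 v := by
    intro Z
    obtain ⟨S, T, h⟩ := hX (Z ∩ X) Set.inter_subset_right
    exact ⟨(S, T), h⟩
  choose p hp1 hp2 hp3 hp4 hp5 hp6 using hX'
  refine Built.extension U (fun Z => (p Z).1) (fun Z => (p Z).2) (fun Z => Z ∩ Y) ?_ ?_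
  · rintro Z hZ ⟨z, hz⟩
    exact {
      SZ := (hp1 Z).trans Set.inter_subset_left
      TZ := (hp2 Z).trans Set.inter_subset_left
      YZ := Set.inter_subset_left
      nonempty := by
        rcases hU (hZ hz) with h | h
        · exact Or.inr (Or.inr ⟨z, hz, h⟩)
        · rcases hp6 Z z ⟨hz, h⟩ with (h | ⟨y, h, _⟩) | (h | ⟨y, h, _⟩)
          · exact Or.inl ⟨z, h⟩
          · exact Or.inl ⟨y, h⟩
          · exact Or.inr (Or.inl ⟨z, h⟩)
          · exact Or.inr (Or.inl ⟨y, h⟩)
      disj := hp3 Z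
      kernel := hp4 Z
      sink := hp5 Z
      cover := by
        intro w hw hwY _
        rcases hU (hZ hw) with h | h
        · exact absurd ⟨hw, h⟩ hwY
        · exact hp6 Z w ⟨hw, h⟩ }
  · intro Z _ _
    exact built_subset hY _ Set.inter_subset_right

lemma kernelPerfect_empty (G : Digraph V) : KernelPerfect G ∅ := fun U hU =>
  ⟨∅, Set.empty_subset _, by simp [Indep], fun v hv => absurd (hU hv) (Set.notMem_empty v)⟩

lemma sinkPerfect_empty (G : Digraph V) : SinkPerfect G ∅ := fun U hU =>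
  ⟨∅, Set.empty_subset _, by simp [Indep], fun v hv => absurd (hU hv) (Set.notMem_empty v)⟩

lemma splits_kernelPerfect {G : Digraph V} {X : Set V} (hX : KernelPerfect G X) : Splits G X :=
  fun U hU => ⟨U, ∅, subset_rfl, Set.empty_subset _, Set.disjoint_empty _,
    fun U' hU' => hX U' (hU'.trans hU), sinkPerfect_empty G, fun _ hv => Or.inl (Or.inl hv)⟩

lemma splits_sinkPerfect {G : Digraph V} {X : Set V} (hX : SinkPerfect G X) : Splits G X :=
  fun U hU => ⟨∅, U, Set.empty_subset _, subset_rfl, Set.empty_disjoint _,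
    kernelPerfect_empty G, fun U' hU' => hX U' (hU'.trans hU), fun _ hv => Or.inr (Or.inl hv)⟩

lemma kernelPerfect_wf {G : Digraph V} {X : Set V}
    (hX : ¬ ∃ f : ℕ → V, (∀ n, f n ∈ X) ∧ ∀ n, G.Adj (f (n + 1)) (f n)) : KernelPerfect G X :=
  fun _ hU => exists_kernel_wf fun ⟨f, hf, h⟩ => hX ⟨f, fun n => hU (hf n), h⟩

lemma sinkPerfect_of_rv {G : Digraph V} {X : Set V} (hX : KernelPerfect (rv G) X) :
    SinkPerfect G X := by
  intro U hU
  obtain ⟨A, hA, hi, hd⟩ := hX U hU
  exact ⟨A, hA, fun x hx y hy hxy => hi y hy x hx hxy, hd⟩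

lemma sinkPerfect_wf {G : Digraph V} {X : Set V}
    (hX : ¬ ∃ f : ℕ → V, (∀ n, f n ∈ X) ∧ ∀ n, G.Adj (f n) (f (n + 1))) : SinkPerfect G X :=
  sinkPerfect_of_rv (kernelPerfect_wf (G := rv G) hX)

/-- sets with finite in-degrees -/
lemma splits_finite_in {G : Digraph V} (hG : ∀ v, ¬ G.Adj v v) {X : Set V}
    (hX : ∀ v ∈ X, {u | u ∈ X ∧ G.Adj u v}.Finite) : Splits G X := by
  intro U hU
  obtain ⟨S, hSU, hdom, hdown⟩ := exists_greedy hG U
  refine ⟨S, ∅, hSU, Set.empty_subset _, Set.disjoint_empty _, ?_, sinkPerfect_empty G,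
    fun v hv => Or.inl (hdom v hv)⟩
  intro R hR
  exact exists_kernel_down (fun x hx y hy => hdown x (hR hx) y (hR hy))
    (fun v hv => (hX v (hU (hSU (hR hv)))).subset fun w hw => ⟨hU (hSU (hR hw.1)), hw.2⟩)

lemma splits_rv {G : Digraph V} {X : Set V} (hX : Splits (rv G) X) : Splits G X := by
  intro U hU
  obtain ⟨S, T, hS, hT, hd, hSk, hTk, hcov⟩ := hX U hU
  refine ⟨T, S, hT, hS, hd.symm, ?_, sinkPerfect_of_rv hSk, fun v hv => (hcov v hv).symm⟩
  intro R hR
  obtain ⟨A, hA, hi, hdm⟩ := hTk R hR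
  exact ⟨A, hA, fun x hx y hy hxy => hi y hy x hx hxy, hdm⟩

/-- sets with finite out-degrees -/
lemma splits_finite_out {G : Digraph V} (hG : ∀ v, ¬ G.Adj v v) {X : Set V}
    (hX : ∀ v ∈ X, {u | u ∈ X ∧ G.Adj v u}.Finite) : Splits G X :=
  splits_rv (splits_finite_in (G := rv G) hG hX)

/-- the pieces of the hand-in on alternating paths split -/
lemma splits_of_piece {G : Digraph V} (hG : ∀ v, ¬ G.Adj v v) {X : Set V} (hX : P4.Piece G X) :
    Splits G X := by
  rcases hX with h | h | h | h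
  · exact splits_kernelPerfect (kernelPerfect_wf h)
  · exact splits_sinkPerfect (sinkPerfect_wf h)
  · exact splits_finite_in hG h
  · exact splits_finite_out hG h

/-- built sets absorb finitely many pieces -/
theorem built_union_splits_fin {G : Digraph V} {Y : Set V} (hY : Built G Y) :
    ∀ (k : ℕ) (X : Fin k → Set V), (∀ i, Splits G (X i)) →
    ∀ U : Set V, (∀ v ∈ U, v ∈ Y ∨ ∃ i, v ∈ X i) → Built G U := by
  intro k
  induction k with
  | zero =>
    intro X _ U hU
    refine built_subset hY U ?_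
    intro v hv
    rcases hU v hv with h | ⟨i, _⟩
    · exact h
    · exact i.elim0
  | succ k ih =>
    intro X hX U hU
    refine built_union_splits (hX 0) (ih (fun i => X i.succ) (fun i => hX _)
      {v | v ∈ Y ∨ ∃ i : Fin k, v ∈ X i.succ} fun v hv => hv) U ?_
    intro v hv
    rcases hU v hv with h | ⟨i, hi⟩
    · exact Or.inl (Or.inl h)
    · rcases Fin.eq_zero_or_eq_succ i with rfl | ⟨j, rfl⟩
      · exact Or.inr hi
      · exact Or.inl (Or.inr ⟨j, hi⟩)

lemma built_splits {G : Digraph V} {X : Set V} (hX : Splits G X) : Built G X :=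
  built_union_splits hX (built_empty G) X Set.subset_union_right

lemma splits_indep {G : Digraph V} {X : Set V} (hX : Indep G X) : Splits G X :=
  splits_kernelPerfect fun U hU =>
    ⟨U, subset_rfl, fun x hx y hy => hX x (hU hx) y (hU hy), fun _ hv => Or.inl hv⟩

/-- tournaments and, more generally, sets without infinite independent sets -/
lemma built_of_noIndep {G : Digraph V} {U : Set V}
    (h : ¬ ∃ y : ℕ → V, (∀ i, y i ∈ U) ∧ ∀ i j, i ≠ j → y i ≠ y j ∧ ¬ Nb G (y i) (y j)) :
    Built G U :=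
  Built.nonneighbours U (fun _ => 0) fun y h1 h2 => absurd ⟨y, h1, h2⟩ h

/-- if the non-neighbours of every vertex form a built set -/
lemma built_of_nonneighbours {G : Digraph V} {U : Set V}
    (h : ∀ v ∈ U, Built G {w | w ∈ U ∧ w ≠ v ∧ ¬ Nb G w v}) : Built G U :=
  Built.nonneighbours U (fun _ => 0) fun y h1 _ => built_subset (h (y 0) (h1 0)) _
    fun w hw => ⟨hw.1, hw.2 0 le_rfl⟩

/-- the condition of the hand-in on alternating paths -/
lemma built_of_pathCond {G : Digraph V} {U : Set V} (hG : ∀ v, ¬ G.Adj v v)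
    (h : P4.PathCond G U) : Built G U := by
  refine Built.substitution U id ?_ ?_ ?_
  · intro x _ y _ z _ h1 _ h3
    rwa [← show x = y from h1]
  · intro x hx y hy z hz w hw h1 h2 h3 h4 h5
    rcases h x hx y hy z hz w hw h1 h2 with h | h | h
    · exact absurd h h3
    · exact absurd h h4
    · exact absurd h h5
  · intro v _
    refine built_splits (splits_indep ?_)
    rintro x ⟨_, hx⟩ y ⟨_, hy⟩ hxy
    have hxy' : x = y := (show x = v from hx).trans (show y = v from hy).symm
    exact hG y (hxy' ▸ hxy)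

/-- any two parts are completely joined or completely nonadjacent, and the pattern of the parts has
no induced path on four vertices (for example disjoint unions and joins) -/
lemma built_of_pattern {G : Digraph V} {U : Set V} (c : V → V) (P : V → V → Prop)
    (hP : ∀ x ∈ U, ∀ y ∈ U, c x ≠ c y → (Nb G x y ↔ P (c x) (c y)))
    (hP4 : ∀ x y z w : V, x ≠ y → x ≠ z → x ≠ w → y ≠ z → y ≠ w → z ≠ w →
      P x y → P y z → P z w → P x z ∨ P x w ∨ P y w)
    (hc : ∀ v ∈ U, Built G {w | w ∈ U ∧ c w = c v}) : Built G U := by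
  have hmod : ∀ x ∈ U, ∀ y ∈ U, ∀ z ∈ U, c x = c y → c z ≠ c x → Nb G z x → Nb G z y := by
    intro x hx y hy z hz h1 h2 h3
    rw [hP z hz y hy (h1 ▸ h2), ← h1, ← hP z hz x hx h2]
    exact h3
  refine Built.substitution U c hmod ?_ hc
  intro x hx y hy z hz w hw h1 h2 h3 h4 h5
  have hxy : Nb G x y := by
    rcases h1 with h | h
    · exact Or.inl h.1
    · exact Or.inr h.2
  have hyz : Nb G y z := by
    rcases h1 with h | h
    · exact Or.inl h.2
    · exact Or.inr h.1
  have hsymm : ∀ {a b : V}, Nb G a b → Nb G b a := fun h => h.symm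
  -- a part containing two of the four vertices contains all
  by_cases e1 : c x = c y
  · by_cases e2 : c z = c x
    · by_cases e3 : c w = c x
      · exact ⟨e1, e2.symm, e3.symm⟩
      · exact absurd (hsymm (hmod z hz x hx w hw e2 (fun h => e3 (h.trans e2)) (hsymm h2))) h4
    · exact absurd (hsymm (hmod y hy x hx z hz e1.symm (fun h => e2 (h.trans e1.symm))
        (hsymm hyz))) h3
  · by_cases e2 : c y = c z
    · exact absurd (hmod y hy z hz x hx e2 e1 hxy) h3
    · by_cases e3 : c x = c z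
      · exact absurd (hsymm (hmod z hz x hx w hw e3.symm (fun h => by
          exact absurd (hmod z hz w hw y hy h.symm (fun h' => e2 h') hyz) h5) (hsymm h2))) h4
      · by_cases e4 : c z = c w
        · exact absurd (hmod z hz w hw y hy e4 e2 hyz) h5
        · by_cases e5 : c x = c w
          · exact absurd (hsymm (hmod w hw x hx z hz e5.symm (fun h => e4 h) h2)) h3
          · by_cases e6 : c y = c w
            · exact absurd (hmod y hy w hw x hx e6 e1 hxy) h4
            · rcases hP4 (c x) (c y) (c z) (c w) e1 e3 e5 e2 e6 e4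
                ((hP x hx y hy e1).1 hxy) ((hP y hy z hz e2).1 hyz)
                ((hP z hz w hw e4).1 h2) with h | h | h
              · exact absurd ((hP x hx z hz e3).2 h) h3
              · exact absurd ((hP x hx w hw e5).2 h) h4
              · exact absurd ((hP y hy w hw e6).2 h) h5

/-- finitely many colours -/
lemma built_union_colour {G : Digraph V} {Y U : Set V} (hY : Built G Y) {X : Set V} {c : V → ℕ}
    {k : ℕ} (hX : ∀ i, Splits G {v | v ∈ X ∧ c v = i})
    (hU : ∀ v ∈ U, v ∈ Y ∨ (v ∈ X ∧ c v < k)) : Built G U :=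
  built_union_splits_fin hY k (fun i => {v | v ∈ X ∧ c v = i}) (fun i => hX i) U (fun v hv => by
    rcases hU v hv with h | ⟨h1, h2⟩
    · exact Or.inl h
    · exact Or.inr ⟨⟨c v, h2⟩, h1, rfl⟩)

/-- the class of the hand-in on tame digraphs -/
theorem built_of_tame {G : Digraph V} (hG : ∀ v, ¬ G.Adj v v) {U : Set V} (h : Tame G U) :
    Built G U := by
  induction h with
  | intro U Y X₀ Z₀ X₁ Z₁ c k cover hX₀ hZ₀ hX₁ hZ₁ n _ ih =>
    have hYU : Built G (Y ∩ U) := by
      refine Built.nonneighbours _ n fun y h1 h2 => ?_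
      have h3 := ih y (fun i => ⟨(h1 i).1, (h1 i).2⟩)
        (fun i j hij => ⟨(h2 i j hij).1, fun h => (h2 i j hij).2 (Or.inl h)⟩)
      refine built_subset h3 _ ?_
      rintro v ⟨hv, hv'⟩
      refine ⟨hv.2, fun i hi => ⟨(hv' i hi).1, fun h => (hv' i hi).2 (Or.inl h),
        fun h => (hv' i hi).2 (Or.inr h)⟩⟩
    have h0 : Built G {v | v ∈ Y ∩ U ∨ (v ∈ X₀ ∧ c v < k)} := by
      refine built_union_colour hYU (X := X₀) (c := c) (k := k) (fun i => ?_) (fun v hv => hv)
      refine splits_kernelPerfect (kernelPerfect_wf ?_)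
      rintro ⟨f, hf, h⟩
      exact hX₀ ⟨f, fun n => ⟨(hf n).1, (hf n).2.trans (hf 0).2.symm⟩, h⟩
    have h1 : Built G {v | v ∈ {v | v ∈ Y ∩ U ∨ (v ∈ X₀ ∧ c v < k)} ∨ (v ∈ X₁ ∧ c v < k)} := by
      refine built_union_colour h0 (X := X₁) (c := c) (k := k) (fun i => ?_) (fun v hv => hv)
      refine splits_sinkPerfect (sinkPerfect_wf ?_)
      rintro ⟨f, hf, h⟩
      exact hX₁ ⟨f, fun n => ⟨(hf n).1, (hf n).2.trans (hf 0).2.symm⟩, h⟩
    refine built_union_splits_fin h1 2 ![Z₀, Z₁] ?_ U ?_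
    · intro i
      fin_cases i
      · exact splits_finite_in hG hZ₀
      · exact splits_finite_out hG hZ₁
    · intro v hv
      rcases cover v hv with h | h | h | h | h
      · exact Or.inl (Or.inl (Or.inl ⟨h, hv⟩))
      · exact Or.inl (Or.inl (Or.inr h))
      · exact Or.inr ⟨0, h⟩
      · exact Or.inl (Or.inr h)
      · exact Or.inr ⟨1, h⟩

/-- the hypotheses of the hand-in on alternating paths -/
theorem built_of_alternating {G : Digraph V} (hG : ∀ v, ¬ G.Adj v v) {Y : Set V}
    (hY : P4.PathCond G Y) (k : ℕ) (X : Fin k → Set V) (hX : ∀ i, P4.Piece G (X i))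
    {U : Set V} (hcov : ∀ v ∈ U, v ∈ Y ∨ ∃ i, v ∈ X i) : Built G U :=
  built_union_splits_fin (built_of_pathCond hG hY) k X (fun i => splits_of_piece hG (hX i)) U hcov

end Pool.Agent.Lib.MP_9317e9_co.Cl
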