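import Mathlib
import Pool.Agent.Lib.MP_9317e9_co.Cl.Examples
import Pool.Agent.Lib.MP_9317e9_co.Cn.Card
import Pool.Agent.Lib.MP_9317e9_co.Peel.WellMain

set_option autoImplicit false

universe u

namespace Pool.Agent.Lib.MP_9317e9_co.Cl

open Pool.Agent.Lib.MP_9317e9_co Pool.Agent.Lib.MP_9317e9_co.P4

variable {V : Type u}

/-- absorbable sets split (and conversely) -/
lemma splits_iff_abs {G : Digraph V} {X : Set V} : Splits G X ↔ Cn.Abs G X := by
  constructor
  · intro h U hU
    obtain ⟨S, T, h1, h2, h3, h4, h5, h6⟩ := h U hU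
    exact ⟨S, T, h1, h2, fun x hx hx' => Set.disjoint_left.1 h3 hx hx', h4, h5, h6⟩
  · intro h U hU
    obtain ⟨S, T, h1, h2, h3, h4, h5, h6⟩ := h U hU
    exact ⟨S, T, h1, h2, Set.disjoint_left.2 h3, h4, h5, h6⟩

/-- well-ordered pieces -/
lemma splits_wellIn {G : Digraph V} (hG : ∀ v, ¬ G.Adj v v) {X : Set V}
    (hX : Peel.WellIn G X) : Splits G X := by
  intro U hU
  obtain ⟨S, hSU, hdom, hS⟩ := Peel.wellIn_perfect hG hX U hU
  exact ⟨S, ∅, hSU, Set.empty_subset _, Set.disjoint_empty _, hS, sinkPerfect_empty G,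
    fun v hv => Or.inl (hdom v hv)⟩

lemma splits_wellOut {G : Digraph V} (hG : ∀ v, ¬ G.Adj v v) {X : Set V}
    (hX : Peel.WellOut G X) : Splits G X :=
  splits_rv (splits_wellIn (G := rv G) hG (Peel.wellOut_rv hX))

/-- the hypotheses of the second version of the hand-in on alternating paths -/
theorem built_of_alternating' {G : Digraph V} (hG : ∀ v, ¬ G.Adj v v) {Y : Set V}
    (hY : P4.PathCond G Y) (k : ℕ) (X : Fin k → Set V)
    (hX : ∀ i, Peel.WellIn G (X i) ∨ Peel.WellOut G (X i))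
    {U : Set V} (hcov : ∀ v ∈ U, v ∈ Y ∨ ∃ i, v ∈ X i) : Built G U :=
  built_union_splits_fin (built_of_pathCond hG hY) k X
    (fun i => (hX i).elim (splits_wellIn hG) (splits_wellOut hG)) U hcov

/-- sets of any cardinality with finite middles, for example without `K_{n,ℵ₀}` -/
theorem splits_finiteMiddles {G : Digraph V} (hG : ∀ v, ¬ G.Adj v v) {X : Set V} {n : ℕ}
    (hA : Cn.CC G X n) (hC : Cn.CFin G X n) : Splits G X := by
  obtain ⟨m, hm⟩ := Cn.exists_cfun hC
  exact splits_iff_abs.2 (Cn.abs_card hG (Nat.succ_pos n) _ X rfl hA.succ hm)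

/-- the union of a built set and a set with finite middles is built -/
theorem built_union_finiteMiddles {G : Digraph V} (hG : ∀ v, ¬ G.Adj v v) {X Y : Set V} {n : ℕ}
    (hA : Cn.CC G X n) (hC : Cn.CFin G X n) (hY : Built G Y) : Built G (Y ∪ X) :=
  built_union_splits (splits_finiteMiddles hG hA hC) hY _ subset_rfl

end Pool.Agent.Lib.MP_9317e9_co.Cl
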